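import Pool.Agent.ZRM.P01

/-!
# ZR part E0 : Gaussian integration by parts for arrays and symmetric Gaussian matrices

* `gauss_ibp`      : `∫ x • f x = ∫ f' x` for the standard Gaussian measure on `ℝ`.
* `gm_ibp`         : the same for one coordinate of the array `X` under `gm N`.
* `gm_ibp_Wv`      : `∫ W_ab • F(W) = v • ∫ dF(W)[E^ab]`, `E^ab = e_a e_b^T + e_b e_a^T`.
* `gm_integrable_of_le` : polynomially bounded measurable functions are integrable.
* `gm_integrable_coord_smul` : `X_p • F X` is integrable when `F` is polynomially bounded.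
-/

set_option autoImplicit false

open MeasureTheory ProbabilityTheory Matrix

namespace Pool.Agent.ZR

section scalar

variable {E : Type*} [NormedAddCommGroup E] [NormedSpace ℝ E]

private theorem e0_int_iff (g : ℝ → E) :
    Integrable g (gaussianReal 0 1) ↔ Integrable (fun x => gaussianPDFReal 0 1 x • g x) := by
  rw [gaussianReal_of_var_ne_zero 0 one_ne_zero,
    integrable_withDensity_iff_integrable_smul' (measurable_gaussianPDF 0 1)
      (Filter.Eventually.of_forall fun x => gaussianPDF_lt_top)]
  simp only [toReal_gaussianPDF]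

private theorem e0_hasDeriv_pdf (x : ℝ) :
    HasDerivAt (gaussianPDFReal 0 1) (-(x * gaussianPDFReal 0 1 x)) x := by
  rw [gaussianPDFReal_def]
  have h1 : HasDerivAt (fun y : ℝ => -(y - 0) ^ 2 / (2 * ((1 : NNReal) : ℝ)))
      (-x) x := by
    have := ((((hasDerivAt_id x).sub_const (0 : ℝ)).pow 2).neg).div_const (2 * ((1 : NNReal) : ℝ))
    refine this.congr_deriv ?_
    simp
    ring
  have h2 := (h1.exp).const_mul ((Real.sqrt (2 * Real.pi * ((1 : NNReal) : ℝ)))⁻¹)
  refine h2.congr_deriv ?_
  ring

/-- Scalar Gaussian integration by parts. -/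
theorem gauss_ibp {f f' : ℝ → E} (hf : ∀ x, HasDerivAt f (f' x) x)
    (h1 : Integrable (fun x : ℝ => x • f x) (gaussianReal 0 1))
    (h2 : Integrable f' (gaussianReal 0 1)) :
    ∫ x, x • f x ∂(gaussianReal 0 1) = ∫ x, f' x ∂(gaussianReal 0 1) := by
  have hc : Continuous f := by
    rw [continuous_iff_continuousAt]
    exact fun x => (hf x).continuousAt
  have h0 : Integrable f (gaussianReal 0 1) := by
    obtain ⟨C, hC⟩ := (isCompact_Icc (a := (-1 : ℝ)) (b := 1)).exists_bound_of_continuousOn
      hc.continuousOn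
    have hC0 : 0 ≤ C := (norm_nonneg _).trans (hC 0 (by constructor <;> norm_num))
    refine Integrable.mono' ((integrable_const C).add h1.norm) hc.aestronglyMeasurable ?_
    refine Filter.Eventually.of_forall fun x => ?_
    simp only [Pi.add_apply]
    by_cases hx : x ∈ Set.Icc (-1 : ℝ) 1
    · exact (hC x hx).trans (le_add_of_nonneg_right (norm_nonneg _))
    · have hx1 : 1 ≤ |x| := by
        rw [Set.mem_Icc, ← abs_le] at hx
        exact (not_le.mp hx).le
      rw [norm_smul, Real.norm_eq_abs]
      nlinarith [norm_nonneg (f x)]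
  rw [integral_gaussianReal_eq_integral_smul one_ne_zero,
    integral_gaussianReal_eq_integral_smul one_ne_zero]
  have key := integral_bilinear_hasDerivAt_right_eq_neg_left_of_integrable
    (L := ContinuousLinearMap.lsmul ℝ ℝ (E := E))
    (u := gaussianPDFReal 0 1) (u' := fun x => -(x * gaussianPDFReal 0 1 x))
    (v := f) (v' := f') (fun x _ => e0_hasDeriv_pdf x) (fun x _ => hf x)
    (by simpa using (e0_int_iff f').1 h2)
    (by
      have := ((e0_int_iff (fun x : ℝ => x • f x)).1 h1).neg
      refine this.congr (Filter.Eventually.of_forall fun x => ?_)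
      simp only [Pi.neg_apply, ContinuousLinearMap.lsmul_apply, smul_smul, neg_smul]
      rw [mul_comm])
    (by simpa using (e0_int_iff f).1 h0)
  simp only [ContinuousLinearMap.lsmul_apply] at key
  rw [key, ← integral_neg]
  refine integral_congr_ae (Filter.Eventually.of_forall fun x => ?_)
  simp only [smul_smul, neg_smul, neg_neg]
  rw [mul_comm]

end scalar

/-! ### resampling one coordinate -/

/-- Replacing one coordinate of a product measure by an independent copy preserves the law. -/
theorem mp_update {ι : Type*} [Fintype ι] [DecidableEq ι] (μ : Measure ℝ)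
    [IsProbabilityMeasure μ] (p : ι) :
    MeasurePreserving (fun q : (ι → ℝ) × ℝ => Function.update q.1 p q.2)
      ((Measure.pi fun _ : ι => μ).prod μ) (Measure.pi fun _ : ι => μ) := by
  have hm : Measurable (fun q : (ι → ℝ) × ℝ => Function.update q.1 p q.2) := by
    rw [measurable_pi_iff]
    intro i
    by_cases hi : i = p
    · subst hi
      simpa using measurable_snd
    · simp only [Function.update_of_ne hi]
      exact (measurable_pi_apply i).comp measurable_fst
  refine ⟨hm, ?_⟩
  refine (Measure.pi_eq (μ := fun _ : ι => μ) fun s hs => ?_).symm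
  rw [Measure.map_apply hm (MeasurableSet.univ_pi hs)]
  have hset : (fun q : (ι → ℝ) × ℝ => Function.update q.1 p q.2) ⁻¹' (Set.univ.pi s)
      = (Set.univ.pi (Function.update s p Set.univ)) ×ˢ (s p) := by
    ext ⟨X, r⟩
    simp only [Set.mem_preimage, Set.mem_pi, Set.mem_univ, true_implies, Set.mem_prod]
    constructor
    · intro h
      refine ⟨fun i => ?_, by simpa using h p⟩
      by_cases hi : i = p
      · subst hi; simp
      · simpa [Function.update_of_ne hi] using h i
    · rintro ⟨h1, h2⟩ i
      by_cases hi : i = p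
      · subst hi; simpa using h2
      · simpa [Function.update_of_ne hi] using h1 i
  rw [hset, Measure.prod_prod, Measure.pi_pi]
  rw [← Finset.mul_prod_erase Finset.univ (fun i => μ (Function.update s p Set.univ i))
    (Finset.mem_univ p), ← Finset.mul_prod_erase Finset.univ (fun i => μ (s i))
    (Finset.mem_univ p)]
  have : ∏ x ∈ Finset.univ.erase p, μ (Function.update s p Set.univ x)
      = ∏ x ∈ Finset.univ.erase p, μ (s x) :=
    Finset.prod_congr rfl fun x hx => by
      rw [Function.update_of_ne (Finset.ne_of_mem_erase hx)]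
  rw [this]
  simp [mul_comm]

section array

variable {E : Type*} [NormedAddCommGroup E] [NormedSpace ℝ E]

instance gm_prob (N : ℕ) : IsProbabilityMeasure (gm N) := by
  unfold gm; infer_instance

/-- Gaussian integration by parts in one coordinate of the array. -/
theorem gm_ibp {N : ℕ} (p : Fin N × Fin N) {F F' : (Fin N × Fin N → ℝ) → E}
    (hF : ∀ X, HasDerivAt (fun s : ℝ => F (Function.update X p s)) (F' X) (X p))
    (h1 : Integrable (fun X => X p • F X) (gm N)) (h2 : Integrable F' (gm N)) :
    ∫ X, X p • F X ∂(gm N) = ∫ X, F' X ∂(gm N) := by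
  have hmp := mp_update (gaussianReal 0 1) p
  have hI : ∀ G : (Fin N × Fin N → ℝ) → E, Integrable G (gm N) →
      (Integrable (fun q : (Fin N × Fin N → ℝ) × ℝ => G (Function.update q.1 p q.2))
        ((gm N).prod (gaussianReal 0 1)) ∧
      ∫ X, G X ∂(gm N) = ∫ X, ∫ s, G (Function.update X p s) ∂(gaussianReal 0 1) ∂(gm N)) := by
    intro G hG
    have hi : Integrable (fun q : (Fin N × Fin N → ℝ) × ℝ => G (Function.update q.1 p q.2))
        ((gm N).prod (gaussianReal 0 1)) := by
      have := hmp.integrable_comp hG.aestronglyMeasurable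
      exact this.2 hG
    refine ⟨hi, ?_⟩
    rw [← integral_prod _ hi]
    have hm : (gm N) = Measure.map
        (fun q : (Fin N × Fin N → ℝ) × ℝ => Function.update q.1 p q.2)
        ((gm N).prod (gaussianReal 0 1)) := hmp.map_eq.symm
    conv_lhs => rw [hm]
    rw [integral_map hmp.measurable.aemeasurable]
    rw [← hm]
    exact hG.aestronglyMeasurable
  obtain ⟨i1, e1⟩ := hI _ h1
  obtain ⟨i2, e2⟩ := hI _ h2
  rw [e1, e2]
  refine integral_congr_ae ?_
  filter_upwards [i1.prod_right_ae, i2.prod_right_ae] with X hX1 hX2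
  simp only [Function.update_self] at hX1 ⊢
  refine gauss_ibp (fun s => ?_) hX1 hX2
  have := hF (Function.update X p s)
  simpa using this

/-- `∫ W_ab • F(W) = v • ∫ dF(W)[E^ab]` for `W = Wv v X`. -/
theorem gm_ibp_Wv {N : ℕ} {v : ℝ} (hv : 0 ≤ v) (a b : Fin N)
    {F : Matrix (Fin N) (Fin N) ℝ → E} {F' : (Fin N × Fin N → ℝ) → E}
    (hF : ∀ X, HasDerivAt
      (fun s : ℝ => F (Wv v X + s • (Matrix.single a b (1 : ℝ) + Matrix.single b a 1))) (F' X) 0)
    (h1 : Integrable (fun X : Fin N × Fin N → ℝ => X (a, b) • F (Wv v X)) (gm N))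
    (h2 : Integrable (fun X : Fin N × Fin N → ℝ => X (b, a) • F (Wv v X)) (gm N))
    (h3 : Integrable F' (gm N)) :
    ∫ X, Wv v X a b • F (Wv v X) ∂(gm N) = v • ∫ X, F' X ∂(gm N) := by
  have hupd : ∀ (a b : Fin N) (X : Fin N × Fin N → ℝ) (s : ℝ),
      Wv v (Function.update X (a, b) s) = Wv v X + (Real.sqrt (v / 2) * (s - X (a, b))) •
        (Matrix.single a b (1 : ℝ) + Matrix.single b a 1) := by
    intro a b X s
    ext i j
    simp only [Wv, Matrix.of_apply, Matrix.add_apply, Matrix.smul_apply, Matrix.single_apply,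
      smul_eq_mul]
    by_cases h1 : a = i ∧ b = j
    · obtain ⟨rfl, rfl⟩ := h1
      by_cases h2 : a = b
      · subst h2; simp; ring
      · have h3 : ((b, a) : Fin N × Fin N) ≠ (a, b) := by
          intro h; exact h2 (congrArg Prod.snd h)
        have h4 : ¬ (b = a ∧ a = b) := fun h => h2 h.2
        rw [Function.update_self, Function.update_of_ne h3]
        simp [h4]; ring
    · have h3 : ((i, j) : Fin N × Fin N) ≠ (a, b) := by
        intro h
        exact h1 ⟨(congrArg Prod.fst h).symm, (congrArg Prod.snd h).symm⟩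
      rw [Function.update_of_ne h3]
      by_cases h2 : b = i ∧ a = j
      · obtain ⟨rfl, rfl⟩ := h2
        rw [Function.update_self]
        simp [h1]; ring
      · have h4 : ((j, i) : Fin N × Fin N) ≠ (a, b) := by
          intro h
          exact h2 ⟨(congrArg Prod.snd h).symm, (congrArg Prod.fst h).symm⟩
        rw [Function.update_of_ne h4]
        simp [h1, h2]
  have hstep : ∀ (a b : Fin N) (F'' : (Fin N × Fin N → ℝ) → E),
      (∀ X, HasDerivAt
        (fun s : ℝ => F (Wv v X + s • (Matrix.single a b (1 : ℝ) + Matrix.single b a 1)))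
        (F'' X) 0) →
      Integrable (fun X : Fin N × Fin N → ℝ => X (a, b) • F (Wv v X)) (gm N) →
      Integrable F'' (gm N) →
      ∫ X, X (a, b) • F (Wv v X) ∂(gm N) = Real.sqrt (v / 2) • ∫ X, F'' X ∂(gm N) := by
    intro a b F'' hF'' h h'
    have := gm_ibp (a, b) (F := fun X => F (Wv v X)) (F' := fun X => Real.sqrt (v / 2) • F'' X)
      (fun X => ?_) h (h'.smul _)
    · rw [this, integral_smul]
    · simp only [hupd]
      have hg : HasDerivAt (fun s : ℝ => Real.sqrt (v / 2) * (s - X (a, b)))
          (Real.sqrt (v / 2)) (X (a, b)) := by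
        have := ((hasDerivAt_id (X (a, b))).sub_const (X (a, b))).const_mul (Real.sqrt (v / 2))
        simpa using this
      have h0 : Real.sqrt (v / 2) * (X (a, b) - X (a, b)) = 0 := by simp
      have hF0 := hF'' X
      rw [← h0] at hF0
      exact HasDerivAt.scomp (X (a, b)) hF0 hg
  have e1 := hstep a b F' hF h1 h3
  have e2 := hstep b a F' (fun X => by
    have := hF X
    rwa [add_comm (Matrix.single a b (1 : ℝ))] at this) h2 h3
  have hrw : ∀ X : Fin N × Fin N → ℝ, Wv v X a b • F (Wv v X)
      = Real.sqrt (v / 2) • (X (a, b) • F (Wv v X) + X (b, a) • F (Wv v X)) := by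
    intro X
    rw [← add_smul, smul_smul]
    rfl
  simp only [hrw]
  rw [integral_smul, integral_add h1 h2, e1, e2, ← two_smul ℝ, smul_smul, smul_smul]
  congr 1
  have := Real.mul_self_sqrt (show 0 ≤ v / 2 by positivity)
  linear_combination 2 * this

end array

/-! ### integrability -/

theorem gm_memLp_coord {N : ℕ} (p : Fin N × Fin N) (q : ENNReal) (hq : q ≠ ⊤) :
    MemLp (fun X : Fin N × Fin N → ℝ => X p) q (gm N) := by
  have h := (memLp_id_gaussianReal' (μ := 0) (v := 1) q hq)
  have hmp : MeasurePreserving (Function.eval p) (gm N) (gaussianReal 0 1) :=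
    measurePreserving_eval (fun _ : Fin N × Fin N => gaussianReal 0 1) p
  exact h.comp_measurePreserving hmp

theorem gm_integrable_pow {N : ℕ} (k : ℕ) :
    Integrable (fun X : Fin N × Fin N → ℝ => (1 + ∑ p, |X p|) ^ k) (gm N) := by
  have h : MemLp (fun X : Fin N × Fin N → ℝ => 1 + ∑ p, |X p|) (k : ENNReal) (gm N) := by
    have h1 : MemLp (fun X : Fin N × Fin N → ℝ => ∑ p, |X p|) (k : ENNReal) (gm N) := by
      have := memLp_finsetSum (μ := gm N) (p := (k : ENNReal)) Finset.univ
        (f := fun (p : Fin N × Fin N) (X : Fin N × Fin N → ℝ) => |X p|)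
        (fun p _ => (gm_memLp_coord p k (by simp)).abs)
      simpa using this
    exact (memLp_const (1 : ℝ)).add h1
  have h2 := h.integrable_norm_pow'
  refine h2.congr (Filter.Eventually.of_forall fun X => ?_)
  have : (0 : ℝ) ≤ 1 + ∑ p, |X p| := by positivity
  simp only [Real.norm_eq_abs, abs_of_nonneg this]

section integ

variable {E : Type*} [NormedAddCommGroup E]

/-- A measurable function of polynomial growth is integrable under `gm N`. -/
theorem gm_integrable_of_le {N : ℕ} {F : (Fin N × Fin N → ℝ) → E}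
    (hm : AEStronglyMeasurable F (gm N)) (C : ℝ) (k : ℕ)
    (h : ∀ X, ‖F X‖ ≤ C * (1 + ∑ p, |X p|) ^ k) : Integrable F (gm N) :=
  ((gm_integrable_pow k).const_mul C).mono' hm (Filter.Eventually.of_forall h)

/-- A coordinate times a function of polynomial growth is integrable under `gm N`. -/
theorem gm_integrable_coord_smul [NormedSpace ℝ E] {N : ℕ} {F : (Fin N × Fin N → ℝ) → E}
    (hm : AEStronglyMeasurable F (gm N)) (C : ℝ) (k : ℕ)
    (h : ∀ X, ‖F X‖ ≤ C * (1 + ∑ p, |X p|) ^ k) (p : Fin N × Fin N) :
    Integrable (fun X => X p • F X) (gm N) := by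
  refine gm_integrable_of_le ((measurable_pi_apply p).aestronglyMeasurable.smul hm) C (k + 1)
    fun X => ?_
  rw [norm_smul, Real.norm_eq_abs, pow_succ']
  have h1 : |X p| ≤ 1 + ∑ p, |X p| := by
    have := Finset.single_le_sum (f := fun p => |X p|) (fun i _ => abs_nonneg (X i))
      (Finset.mem_univ p)
    linarith
  calc |X p| * ‖F X‖ ≤ (1 + ∑ p, |X p|) * (C * (1 + ∑ p, |X p|) ^ k) :=
        mul_le_mul h1 (h X) (norm_nonneg _) ((abs_nonneg _).trans h1)
    _ = C * ((1 + ∑ p, |X p|) * (1 + ∑ p, |X p|) ^ k) := by ring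

end integ

/-! ### basic facts on `Wv` -/

theorem wv_continuous {N : ℕ} (v : ℝ) :
    Continuous (fun X : Fin N × Fin N → ℝ => Wv v X) := by
  refine continuous_matrix fun i j => ?_
  simp only [Wv, Matrix.of_apply]
  fun_prop

theorem wv_symm {N : ℕ} (v : ℝ) (X : Fin N × Fin N → ℝ) : (Wv v X)ᵀ = Wv v X := by
  ext i j
  simp only [Wv, Matrix.transpose_apply, Matrix.of_apply]
  ring

theorem wv_abs_le {N : ℕ} (v : ℝ) (X : Fin N × Fin N → ℝ) (i j : Fin N) :
    |Wv v X i j| ≤ 2 * Real.sqrt (v / 2) * (1 + ∑ p, |X p|) := by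
  have h1 : ∀ q : Fin N × Fin N, |X q| ≤ 1 + ∑ p, |X p| := by
    intro q
    have := Finset.single_le_sum (f := fun p => |X p|) (fun i _ => abs_nonneg (X i))
      (Finset.mem_univ q)
    linarith
  simp only [Wv, Matrix.of_apply]
  rw [abs_mul, abs_of_nonneg (Real.sqrt_nonneg _)]
  have h2 := abs_add_le (X (i, j)) (X (j, i))
  have h3 := h1 (i, j)
  have h4 := h1 (j, i)
  have h5 := Real.sqrt_nonneg (v / 2)
  calc Real.sqrt (v / 2) * |X (i, j) + X (j, i)|
      ≤ Real.sqrt (v / 2) * (2 * (1 + ∑ p, |X p|)) := by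
        apply mul_le_mul_of_nonneg_left _ h5
        linarith
    _ = _ := by ring

end Pool.Agent.ZR
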